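import Mathlib
import Pool.Agent.H17.S51Final

/-!
MP_681c11_nt, Q1, full answer: for every `n ≥ 2`,
* if `2n+1` is no power of `3`, then `(-1)^(n-1) a_n` is a positive integer;
* if `2n+1` is a power of `3`, then `3 a_n` is an integer not divisible by `3`.
-/

namespace Pool.Agent.Results.MP_681c11_nt.CubicSumIntegrality

open Finset

theorem result (a : ℕ → ℚ)
    (ha : ∀ n : ℕ, 1 ≤ n → a n = 1 / ((n : ℚ) * (2 * n + 1) * (Nat.choose (2 * n) n : ℚ)) *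
      ∑ k ∈ range n, (-1728 : ℚ) ^ (n - 1 - k) * (51 * k + 7) *
        (Nat.choose (2 * k) k : ℚ) ^ 2 * (Nat.choose (3 * k) k : ℚ)) :
    ∀ n : ℕ, 2 ≤ n →
      ((∀ m : ℕ, 2 * n + 1 ≠ 3 ^ m) → ∃ z : ℤ, 0 < z ∧ (-1) ^ (n - 1) * a n = (z : ℚ)) ∧
      ((∃ m : ℕ, 2 * n + 1 = 3 ^ m) → ∃ z : ℤ, 3 * a n = (z : ℚ) ∧ ¬ (3 : ℤ) ∣ z) := by
  intro n hn
  have hS : (Pool.Agent.H17.SS n : ℚ) = ∑ k ∈ range n, (-1728 : ℚ) ^ (n - 1 - k) * (51 * k + 7) *
        (Nat.choose (2 * k) k : ℚ) ^ 2 * (Nat.choose (3 * k) k : ℚ) := by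
    unfold Pool.Agent.H17.SS Pool.Agent.H17.tt
    push_cast
    refine sum_congr rfl ?_
    intro k _
    ring
  have e : a n = Pool.Agent.H17.aa n := by
    rw [ha n (by omega), ← hS]
    unfold Pool.Agent.H17.aa
    rw [Nat.centralBinom_eq_two_mul_choose]
    ring
  obtain ⟨b, hb, h1, h2⟩ := Pool.Agent.H17.aa_third n hn
  have hs := Pool.Agent.H17.aa_sign n (by omega)
  rw [e]
  refine ⟨?_, ?_⟩
  · intro h
    obtain ⟨c, hc⟩ := h1 h
    have e2 : Pool.Agent.H17.aa n = (c : ℚ) := by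
      rw [hc] at hb
      push_cast at hb
      linarith
    refine ⟨(-1) ^ (n - 1) * c, ?_, ?_⟩
    · rw [e2] at hs
      exact_mod_cast hs
    · rw [e2]; push_cast; ring
  · intro h
    exact ⟨b, hb, h2 h⟩

end Pool.Agent.Results.MP_681c11_nt.CubicSumIntegrality
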